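import Mathlib

set_option autoImplicit false

namespace Pool.Agent.MP_515f4e_co

open Finset

/-- The closed ball of radius `r` around `v` in the graph `G`. -/
def ball {V : Type} (G : SimpleGraph V) (v : V) (r : ℕ) : Set V := {w | G.dist v w ≤ r}

/-- All balls of `G` have Cheeger constant greater than `c`: for every ball `B(v,r)` and every
nonempty `S ⊆ B(v,r)` with at most half of its vertices, more than `c |S|` vertices of
`B(v,r) \ S` are adjacent to a vertex of `S`. -/
def BallsExpand {V : Type} (G : SimpleGraph V) (c : ℝ) : Prop :=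
  ∀ (v : V) (r : ℕ) (S : Finset V), (∀ w ∈ S, w ∈ ball G v r) → 0 < S.card →
    2 * S.card ≤ (ball G v r).ncard →
    c * (S.card : ℝ) < ({w : V | w ∈ ball G v r ∧ w ∉ S ∧ ∃ s ∈ S, G.Adj s w}.ncard : ℝ)

variable {V : Type} {G : SimpleGraph V}

lemma mem_ball {v w : V} {r : ℕ} : w ∈ ball G v r ↔ G.dist v w ≤ r := Iff.rfl

lemma ball_subset (hc : G.Connected) {v w : V} {r s : ℕ} (h : G.dist v w + s ≤ r) :
    ball G w s ⊆ ball G v r := by
  intro z hz
  have := hc.dist_triangle (u := v) (v := w) (w := z)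
  rw [mem_ball] at *
  omega

lemma exists_prev (hc : G.Connected) {v w : V} {r : ℕ} (h : G.dist v w = r + 1) :
    ∃ u, G.dist v u ≤ r ∧ G.Adj u w := by
  obtain ⟨p, hp⟩ := hc.exists_walk_length_eq_dist v w
  have hlt : r < p.length := by omega
  refine ⟨p.getVert r, ?_, ?_⟩
  · have := SimpleGraph.dist_le (p.take r)
    rw [SimpleGraph.Walk.take_length] at this
    omega
  · have := p.adj_getVert_succ hlt
    rwa [show r + 1 = p.length by omega, p.getVert_length] at this

lemma ball_succ_subset (hc : G.Connected) (v : V) (r : ℕ) :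
    ball G v (r + 1) ⊆ ball G v r ∪ ⋃ u ∈ ball G v r, G.neighborSet u := by
  intro w hw
  rw [mem_ball] at hw
  rcases Nat.lt_or_ge (G.dist v w) (r + 1) with h | h
  · left; rw [mem_ball]; omega
  · right
    obtain ⟨u, hu, hadj⟩ := exists_prev hc (le_antisymm hw h)
    simp only [Set.mem_iUnion]
    exact ⟨u, hu, hadj⟩

lemma ball_zero (hc : G.Connected) (v : V) : ball G v 0 = {v} := by
  ext w
  rw [mem_ball, Nat.le_zero, Set.mem_singleton_iff, hc.dist_eq_zero_iff]
  exact eq_comm

lemma ball_finite (hc : G.Connected) {D : ℕ} (hD : ∀ v, (G.neighborSet v).encard ≤ D) (v : V)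
    (r : ℕ) : (ball G v r).Finite := by
  induction r with
  | zero => rw [ball_zero hc]; exact Set.finite_singleton v
  | succ r ih =>
    refine Set.Finite.subset ?_ (ball_succ_subset hc v r)
    refine ih.union (ih.biUnion (fun u _ => ?_))
    exact Set.finite_of_encard_le_coe (hD u)

/-- the ball as a finset -/
noncomputable def fball (hc : G.Connected) {D : ℕ} (hD : ∀ v, (G.neighborSet v).encard ≤ D) (v : V)
    (r : ℕ) : Finset V := (ball_finite hc hD v r).toFinset

section

variable (hc : G.Connected) {D : ℕ} (hD : ∀ v, (G.neighborSet v).encard ≤ D)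

lemma mem_fball {v w : V} {r : ℕ} : w ∈ fball hc hD v r ↔ G.dist v w ≤ r := by
  unfold fball
  rw [Set.Finite.mem_toFinset, mem_ball]

lemma card_fball (v : V) (r : ℕ) : (fball hc hD v r).card = (ball G v r).ncard := by
  unfold fball
  rw [Set.ncard_eq_toFinset_card _ (ball_finite hc hD v r)]

include hc hD in
lemma ncard_ball_succ_le (v : V) (r : ℕ) :
    (ball G v (r + 1)).ncard ≤ (D + 1) * (ball G v r).ncard := by
  classical
  have hfin : ∀ u, (G.neighborSet u).Finite := fun u => Set.finite_of_encard_le_coe (hD u)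
  have hsub : fball hc hD v (r + 1) ⊆ fball hc hD v r ∪
      (fball hc hD v r).biUnion (fun u => (hfin u).toFinset) := by
    intro w hw
    have := ball_succ_subset hc v r (show w ∈ ball G v (r + 1) from (mem_fball hc hD).1 hw)
    rcases this with h | h
    · exact mem_union_left _ ((mem_fball hc hD).2 h)
    · apply mem_union_right
      simp only [Set.mem_iUnion] at h
      obtain ⟨u, hu, huw⟩ := h
      exact mem_biUnion.2 ⟨u, (mem_fball hc hD).2 hu, (Set.Finite.mem_toFinset _).2 huw⟩
  rw [← card_fball hc hD, ← card_fball hc hD]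
  calc (fball hc hD v (r + 1)).card ≤ _ := card_le_card hsub
    _ ≤ (fball hc hD v r).card + ((fball hc hD v r).biUnion (fun u => (hfin u).toFinset)).card :=
        card_union_le _ _
    _ ≤ (fball hc hD v r).card + (fball hc hD v r).card * D := by
        gcongr
        apply card_biUnion_le_card_mul
        intro u _
        have h1 := hD u
        rw [(hfin u).encard_eq_coe_toFinset_card] at h1
        exact_mod_cast h1
    _ = _ := by ring

include hc hD in
lemma ncard_ball_add_le (v : V) (r k : ℕ) :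
    (ball G v (r + k)).ncard ≤ (D + 1) ^ k * (ball G v r).ncard := by
  induction k with
  | zero => simp
  | succ k ih =>
    calc (ball G v (r + (k + 1))).ncard ≤ (D + 1) * (ball G v (r + k)).ncard :=
          ncard_ball_succ_le hc hD v (r + k)
      _ ≤ (D + 1) * ((D + 1) ^ k * (ball G v r).ncard) := by gcongr
      _ = _ := by ring

include hc hD in
lemma ncard_ball_le (v : V) (r : ℕ) : (ball G v r).ncard ≤ (D + 1) ^ r := by
  have := ncard_ball_add_le hc hD v 0 r
  rw [ball_zero hc, Set.ncard_singleton, Nat.zero_add, mul_one] at this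
  exact this

include hc hD in
lemma ncard_ball_pos (v : V) (r : ℕ) : 0 < (ball G v r).ncard := by
  rw [Set.ncard_pos (ball_finite hc hD v r)]
  exact ⟨v, by rw [mem_ball, SimpleGraph.dist_self]; omega⟩

include hc hD in
lemma ncard_ball_mono {v w : V} {r s : ℕ} (h : ball G v r ⊆ ball G w s) :
    (ball G v r).ncard ≤ (ball G w s).ncard :=
  Set.ncard_le_ncard h (ball_finite hc hD w s)

/-- the vertices that are `R`-deep in `A` relative to `B` -/
noncomputable def deep (G : SimpleGraph V) (A B : Finset V) (R : ℕ) : Finset V := by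
  classical
  exact A.filter (fun y => ∀ z ∈ B, G.dist y z ≤ R → z ∈ A)

lemma mem_deep {A B : Finset V} {R : ℕ} {y : V} :
    y ∈ deep G A B R ↔ y ∈ A ∧ ∀ z ∈ B, G.dist y z ≤ R → z ∈ A := by
  classical
  unfold deep
  rw [mem_filter]

include hD in
/-- deep vertices are exponentially rare -/
lemma card_deep_le {c : ℝ} (hc0 : 0 < c) (hexp : BallsExpand G c) (v : V) (r : ℕ) (A : Finset V)
    (hA : A ⊆ fball hc hD v r) (hhalf : 2 * A.card ≤ (ball G v r).ncard) (R : ℕ) :
    (1 + c) ^ R * ((deep G A (fball hc hD v r) R).card : ℝ) ≤ A.card := by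
  classical
  induction R with
  | zero =>
    simp only [pow_zero, one_mul, Nat.cast_le]
    exact card_le_card (fun y hy => (mem_deep.1 hy).1)
  | succ R ih =>
    set B := fball hc hD v r with hB
    set A1 := deep G A B (R + 1) with hA1
    set A0 := deep G A B R with hA0
    by_cases hne : A1.card = 0
    · rw [hne]; simp
    have hpos : 0 < A1.card := Nat.pos_of_ne_zero hne
    have hsubA : A1 ⊆ A := fun y hy => (mem_deep.1 hy).1
    have h1 := hexp v r A1 (fun w hw => (mem_fball hc hD).1 (hA (hsubA hw))) hpos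
      (le_trans (Nat.mul_le_mul_left _ (card_le_card hsubA)) hhalf)
    have hsub : A1 ∪ B.filter (fun w => w ∉ A1 ∧ ∃ s ∈ A1, G.Adj s w) ⊆ A0 := by
      intro z hz
      rw [mem_union] at hz
      rcases hz with hz | hz
      · rw [mem_deep] at hz ⊢
        exact ⟨hz.1, fun w hw hd => hz.2 w hw (by omega)⟩
      · rw [mem_filter] at hz
        obtain ⟨hzB, _, s, hs, hadj⟩ := hz
        rw [mem_deep] at hs ⊢
        have hd1 : G.dist s z ≤ 1 := by rw [SimpleGraph.dist_eq_one_iff_adj.2 hadj]
        refine ⟨hs.2 z hzB (by omega), fun w hw hd => hs.2 w hw ?_⟩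
        have := hc.dist_triangle (u := s) (v := z) (w := w)
        omega
    have hcard : A1.card + (B.filter (fun w => w ∉ A1 ∧ ∃ s ∈ A1, G.Adj s w)).card ≤ A0.card := by
      rw [← card_union_of_disjoint]
      · exact card_le_card hsub
      · rw [disjoint_left]
        intro a ha ha'
        exact (mem_filter.1 ha').2.1 ha
    have h2 : ({w : V | w ∈ ball G v r ∧ w ∉ A1 ∧ ∃ s ∈ A1, G.Adj s w}.ncard) =
        (B.filter (fun w => w ∉ A1 ∧ ∃ s ∈ A1, G.Adj s w)).card := by
      rw [← Set.ncard_coe_finset]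
      congr 1
      ext w
      simp only [Set.mem_ofPred_eq, coe_filter, hB, mem_fball, mem_ball]
    rw [h2] at h1
    have h3 : (A1.card : ℝ) + (B.filter (fun w => w ∉ A1 ∧ ∃ s ∈ A1, G.Adj s w)).card ≤ A0.card := by
      exact_mod_cast hcard
    have h4 : (1 + c) * (A1.card : ℝ) ≤ A0.card := by linarith
    calc (1 + c) ^ (R + 1) * (A1.card : ℝ) = (1 + c) ^ R * ((1 + c) * A1.card) := by ring
      _ ≤ (1 + c) ^ R * A0.card := by
          apply mul_le_mul_of_nonneg_left h4
          positivity
      _ ≤ A.card := ih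

include hc hD in
lemma exists_large_ball [Infinite V] (v : V) (N : ℕ) : ∃ r, N ≤ (ball G v r).ncard := by
  classical
  obtain ⟨T, hT⟩ := Infinite.exists_subset_card_eq V N
  obtain ⟨r, hr⟩ : ∃ r, ∀ w ∈ T, G.dist v w ≤ r :=
    ⟨T.sup (fun w => G.dist v w), fun w hw => le_sup (f := fun w => G.dist v w) hw⟩
  refine ⟨r, ?_⟩
  rw [← card_fball hc hD, ← hT]
  exact card_le_card (fun w hw => (mem_fball hc hD).2 (hr w hw))

include hc hD in
lemma growth [Infinite V] {c : ℝ} (hexp : BallsExpand G c) (v : V) (r : ℕ) :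
    (1 + c) * ((ball G v r).ncard : ℝ) ≤ (ball G v (r + 1)).ncard := by
  classical
  obtain ⟨r', hr'⟩ := exists_large_ball hc hD v (2 * (ball G v (r + 1)).ncard)
  have hrr : r + 1 ≤ r' := by
    by_contra h
    push Not at h
    have h1 : (ball G v r').ncard ≤ (ball G v (r + 1)).ncard := by
      apply ncard_ball_mono hc hD
      intro z hz
      rw [mem_ball] at *
      omega
    have h2 := ncard_ball_pos hc hD v (r + 1)
    omega
  have hle : (ball G v r).ncard ≤ (ball G v (r + 1)).ncard := by
    apply ncard_ball_mono hc hD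
    intro z hz
    rw [mem_ball] at *
    omega
  have h1 := hexp v r' (fball hc hD v r) (fun w hw => by
      rw [mem_fball] at hw
      rw [mem_ball]; omega) (by rw [card_fball]; exact ncard_ball_pos hc hD v r)
    (by rw [card_fball]; omega)
  have h2 : {w : V | w ∈ ball G v r' ∧ w ∉ fball hc hD v r ∧ ∃ s ∈ fball hc hD v r, G.Adj s w} ⊆
      ((fball hc hD v (r + 1) \ fball hc hD v r : Finset V) : Set V) := by
    rintro w ⟨_, hw2, s, hs, hadj⟩
    rw [mem_coe, mem_sdiff]
    refine ⟨?_, hw2⟩
    rw [mem_fball] at *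
    have h3 := hc.dist_triangle (u := v) (v := s) (w := w)
    have h4 : G.dist s w = 1 := SimpleGraph.dist_eq_one_iff_adj.2 hadj
    omega
  have h3 := Set.ncard_le_ncard h2 (Finset.finite_toSet _)
  rw [Set.ncard_coe_finset, card_sdiff_of_subset] at h3
  · rw [card_fball, card_fball] at h3
    rw [card_fball] at h1
    have h5 : ((ball G v (r + 1)).ncard - (ball G v r).ncard : ℕ) =
        ((ball G v (r + 1)).ncard : ℝ) - (ball G v r).ncard := by
      rw [Nat.cast_sub hle]
    have h6 : ({w : V | w ∈ ball G v r' ∧ w ∉ fball hc hD v r ∧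
        ∃ s ∈ fball hc hD v r, G.Adj s w}.ncard : ℝ) ≤
        ((ball G v (r + 1)).ncard : ℝ) - (ball G v r).ncard := by
      rw [← h5]; exact_mod_cast h3
    linarith
  · intro w hw
    rw [mem_fball] at *
    omega

/-- the largest size of a ball of radius `n` -/
noncomputable def Mx (G : SimpleGraph V) (n : ℕ) : ℕ := sSup (Set.range fun v => (ball G v n).ncard)

include hc hD in
lemma bdd_range (n : ℕ) : BddAbove (Set.range fun v => (ball G v n).ncard) := by
  refine ⟨(D + 1) ^ n, ?_⟩
  rintro _ ⟨v, rfl⟩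
  exact ncard_ball_le hc hD v n

include hc hD in
lemma le_Mx (v : V) (n : ℕ) : (ball G v n).ncard ≤ Mx G n :=
  le_csSup (bdd_range hc hD n) ⟨v, rfl⟩

include hc hD in
lemma exists_Mx (n : ℕ) : ∃ v, (ball G v n).ncard = Mx G n := by
  have : Nonempty V := hc.nonempty
  exact Nat.sSup_mem (Set.range_nonempty _) (bdd_range hc hD n)

include hc hD in
lemma Mx_pos (n : ℕ) : 0 < Mx G n := by
  obtain ⟨v, hv⟩ := exists_Mx hc hD n
  rw [← hv]
  exact ncard_ball_pos hc hD v n

include hc hD in
lemma Mx_growth [Infinite V] {c : ℝ} (hc0 : 0 < c) (hexp : BallsExpand G c) (n k : ℕ) :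
    (1 + c) ^ k * (Mx G n : ℝ) ≤ Mx G (n + k) := by
  induction k with
  | zero => simp
  | succ k ih =>
    obtain ⟨v, hv⟩ := exists_Mx hc hD (n + k)
    have h1 := growth hc hD hexp v (n + k)
    rw [hv] at h1
    have h2 : ((ball G v (n + k + 1)).ncard : ℝ) ≤ Mx G (n + (k + 1)) := by
      exact_mod_cast le_Mx hc hD v (n + k + 1)
    calc (1 + c) ^ (k + 1) * (Mx G n : ℝ) = (1 + c) * ((1 + c) ^ k * Mx G n) := by ring
      _ ≤ (1 + c) * Mx G (n + k) := by
          apply mul_le_mul_of_nonneg_left ih; linarith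
      _ ≤ _ := h1.trans h2

end

/-- a path function towards a vertex of a ball -/
lemma exists_path (hc : G.Connected) (v y : V) (n : ℕ) (h : G.dist v y ≤ n) :
    ∃ γ : ℕ → V, γ 0 = v ∧ γ n = y ∧ ∀ i k, G.dist (γ i) (γ (i + k)) ≤ k := by
  obtain ⟨p, hp⟩ := hc.exists_walk_length_eq_dist v y
  refine ⟨p.getVert, p.getVert_zero, p.getVert_of_length_le (by omega), ?_⟩
  intro i k
  induction k with
  | zero => simp
  | succ k ih =>
    have h1 := hc.dist_triangle (u := p.getVert i) (v := p.getVert (i + k))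
      (w := p.getVert (i + (k + 1)))
    have h2 : G.dist (p.getVert (i + k)) (p.getVert (i + (k + 1))) ≤ 1 := by
      rcases Nat.lt_or_ge (i + k) p.length with h3 | h3
      · have := p.adj_getVert_succ h3
        rw [← add_assoc, SimpleGraph.dist_eq_one_iff_adj.2 this]
      · rw [p.getVert_of_length_le h3, p.getVert_of_length_le (by omega), SimpleGraph.dist_self]
        omega
    omega

end Pool.Agent.MP_515f4e_co
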