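import Pool.Agent.MP_515f4e_co.Balls

set_option autoImplicit false

namespace Pool.Agent.MP_515f4e_co

open Finset

lemma halving (β : ℕ → ℕ) (q m : ℕ) (hpos : 0 < β m)
    (h1 : ∀ j < m, β j ≤ 2 ^ q * β (j + 1)) (h2 : 4 ^ m * β m ≤ β 0) :
    m ≤ q * ((range m).filter (fun j => 2 * β (j + 1) ≤ β j)).card := by
  have key : ∀ t ≤ m, β 0 ≤
      2 ^ (t + q * ((range t).filter (fun j => 2 * β (j + 1) ≤ β j)).card) * β t := by
    intro t
    induction t with
    | zero => intro _; simp
    | succ t ih =>
      intro ht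
      have ih' := ih (by omega)
      rw [range_add_one, filter_insert]
      split_ifs with h
      · rw [card_insert_of_notMem (by simp)]
        calc β 0 ≤ _ := ih'
          _ ≤ 2 ^ (t + q * ((range t).filter (fun j => 2 * β (j + 1) ≤ β j)).card) *
              (2 ^ q * β (t + 1)) := by
              gcongr
              exact h1 t (by omega)
          _ = 2 ^ (t + q * ((range t).filter (fun j => 2 * β (j + 1) ≤ β j)).card + q) *
              β (t + 1) := by ring
          _ ≤ _ := by
              apply Nat.mul_le_mul_right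
              apply Nat.pow_le_pow_right (by norm_num)
              rw [mul_add]; omega
      · push Not at h
        calc β 0 ≤ _ := ih'
          _ ≤ 2 ^ (t + q * ((range t).filter (fun j => 2 * β (j + 1) ≤ β j)).card) *
              (2 * β (t + 1)) := by
              gcongr
          _ = 2 ^ (t + 1 + q * ((range t).filter (fun j => 2 * β (j + 1) ≤ β j)).card) *
              β (t + 1) := by ring
  have h3 := key m le_rfl
  set g := ((range m).filter (fun j => 2 * β (j + 1) ≤ β j)).card
  have h4 : 4 ^ m * β m ≤ 2 ^ (m + q * g) * β m := h2.trans h3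
  have h5 : 4 ^ m ≤ 2 ^ (m + q * g) := Nat.le_of_mul_le_mul_right h4 hpos
  rw [show (4 : ℕ) = 2 ^ 2 by norm_num, ← pow_mul] at h5
  have h6 := (Nat.pow_le_pow_iff_right (by norm_num : 1 < 2)).1 h5
  omega

variable {V : Type} {G : SimpleGraph V} (hc : G.Connected) {D : ℕ}
  (hD : ∀ v, (G.neighborSet v).encard ≤ D)

open Classical in
/-- At most `(D+1)^R` of the nested balls along a path are left within distance `R` of `y`. -/
lemma exits_le (γ : ℕ → V) (y : V) (n k R m : ℕ) (hmk : m * k ≤ n)
    (hγ : ∀ i l, G.dist (γ i) (γ (i + l)) ≤ l) :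
    ((range m).filter (fun j => y ∈ fball hc hD (γ ((j + 1) * k)) (n - (j + 1) * k) ∧
      y ∉ deep G (fball hc hD (γ ((j + 1) * k)) (n - (j + 1) * k))
        (fball hc hD (γ (j * k)) (n - j * k)) R)).card ≤ (D + 1) ^ R := by
  have hex : ∀ j ∈ (range m).filter (fun j => y ∈ fball hc hD (γ ((j + 1) * k)) (n - (j + 1) * k) ∧
      y ∉ deep G (fball hc hD (γ ((j + 1) * k)) (n - (j + 1) * k))
        (fball hc hD (γ (j * k)) (n - j * k)) R),
      ∃ z, z ∈ fball hc hD (γ (j * k)) (n - j * k) ∧ G.dist y z ≤ R ∧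
        z ∉ fball hc hD (γ ((j + 1) * k)) (n - (j + 1) * k) := by
    intro j hj
    obtain ⟨_, h1, h2⟩ := mem_filter.1 hj
    rw [mem_deep] at h2
    push Not at h2
    obtain ⟨z, hz1, hz2, hz3⟩ := h2 h1
    exact ⟨z, hz1, hz2, hz3⟩
  have : Nonempty V := ⟨y⟩
  choose! f hf1 hf2 hf3 using hex
  have hle : ((range m).filter (fun j => y ∈ fball hc hD (γ ((j + 1) * k)) (n - (j + 1) * k) ∧
      y ∉ deep G (fball hc hD (γ ((j + 1) * k)) (n - (j + 1) * k))
        (fball hc hD (γ (j * k)) (n - j * k)) R)).card ≤ (fball hc hD y R).card := by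
    apply card_le_card_of_injOn f
    · intro j hj
      rw [mem_coe, mem_fball]
      exact hf2 j hj
    · have key : ∀ i j, i ∈ (range m).filter (fun j => y ∈ fball hc hD (γ ((j + 1) * k))
          (n - (j + 1) * k) ∧ y ∉ deep G (fball hc hD (γ ((j + 1) * k)) (n - (j + 1) * k))
          (fball hc hD (γ (j * k)) (n - j * k)) R) →
          j ∈ (range m).filter (fun j => y ∈ fball hc hD (γ ((j + 1) * k)) (n - (j + 1) * k) ∧
          y ∉ deep G (fball hc hD (γ ((j + 1) * k)) (n - (j + 1) * k))
          (fball hc hD (γ (j * k)) (n - j * k)) R) → i < j → f i ≠ f j := by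
        intro i j hi hj hij heq
        apply hf3 i hi
        rw [heq, mem_fball]
        have h1 := hf1 j hj
        rw [mem_fball] at h1
        have hjm : j < m := mem_range.1 (mem_filter.1 hj).1
        have h2 : (i + 1) * k ≤ j * k := Nat.mul_le_mul_right _ hij
        have h4 : j * k ≤ m * k := Nat.mul_le_mul_right _ hjm.le
        have h3 := hγ ((i + 1) * k) (j * k - (i + 1) * k)
        rw [Nat.add_sub_cancel' h2] at h3
        have h5 := hc.dist_triangle (u := γ ((i + 1) * k)) (v := γ (j * k)) (w := f j)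
        omega
      intro i hi j hj heq
      rcases lt_trichotomy i j with h | h | h
      · exact absurd heq (key i j hi hj h)
      · exact h
      · exact absurd heq.symm (key j i hj hi h)
  refine hle.trans ?_
  rw [card_fball]
  exact ncard_ball_le hc hD y R

open Classical in
include hc hD in
/-- The main inequality. -/
theorem main_ineq [Infinite V] {c : ℝ} (hc0 : 0 < c) (hexp : BallsExpand G c) (k q R m n : ℕ)
    (hk : (4 : ℝ) ≤ (1 + c) ^ k) (hq : (D + 1) ^ (2 * k) ≤ 2 ^ q) (hmk : m * k ≤ n)
    (hm : q * (2 * (D + 1) ^ R) ≤ m) :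
    ((D + 1) ^ R : ℝ) * (1 + c) ^ R * Mx G n ≤
      (D + 1) ^ k * ∑ j ∈ range m, (Mx G ((j + 1) * k) : ℝ) * Mx G (n - (j + 1) * k) := by
  obtain ⟨v, hv⟩ := exists_Mx hc hD n
  have hpath : ∀ y, ∃ γ : ℕ → V, y ∈ fball hc hD v n → γ 0 = v ∧ γ n = y ∧
      ∀ i k, G.dist (γ i) (γ (i + k)) ≤ k := by
    intro y
    by_cases h : y ∈ fball hc hD v n
    · obtain ⟨γ, hγ⟩ := exists_path hc v y n ((mem_fball hc hD).1 h)
      exact ⟨γ, fun _ => hγ⟩
    · exact ⟨fun _ => y, fun h' => absurd h' h⟩
  choose γ hγ using hpath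
  -- abbreviations
  let A : V → ℕ → Finset V := fun x j => fball hc hD x (n - j * k)
  let P : V → ℕ → Prop := fun y j => 2 * (A (γ y ((j + 1) * k)) (j + 1)).card ≤
    (A (γ y (j * k)) j).card ∧ y ∈ deep G (A (γ y ((j + 1) * k)) (j + 1)) (A (γ y (j * k)) j) R
  -- lower bound for each y
  have hlow : ∀ y ∈ fball hc hD v n, (D + 1) ^ R ≤ ((range m).filter (fun j => P y j)).card := by
    intro y hy
    obtain ⟨h0, hn, hγy⟩ := hγ y hy
    let β : ℕ → ℕ := fun j => (A (γ y (j * k)) j).card
    have hβ : ∀ j, β j = (ball G (γ y (j * k)) (n - j * k)).ncard := fun j => card_fball hc hD _ _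
    have hb1 : ∀ j < m, β j ≤ 2 ^ q * β (j + 1) := by
      intro j hj
      rw [hβ, hβ]
      have hjk : (j + 1) * k ≤ m * k := Nat.mul_le_mul_right _ hj
      have e1 : (j + 1) * k = j * k + k := by ring
      have hd := hγy (j * k) k
      rw [← e1] at hd
      have hsub : ball G (γ y (j * k)) (n - j * k) ⊆
          ball G (γ y ((j + 1) * k)) ((n - (j + 1) * k) + 2 * k) := by
        apply ball_subset hc
        rw [SimpleGraph.dist_comm]
        omega
      calc (ball G (γ y (j * k)) (n - j * k)).ncard ≤ _ := ncard_ball_mono hc hD hsub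
        _ ≤ (D + 1) ^ (2 * k) * (ball G (γ y ((j + 1) * k)) (n - (j + 1) * k)).ncard :=
            ncard_ball_add_le hc hD _ _ _
        _ ≤ _ := Nat.mul_le_mul_right _ hq
    have hb2 : 4 ^ m * β m ≤ β 0 := by
      rw [hβ, hβ, zero_mul, h0, Nat.sub_zero, hv]
      have h1 : ((ball G (γ y (m * k)) (n - m * k)).ncard : ℝ) ≤ Mx G (n - m * k) := by
        exact_mod_cast le_Mx hc hD _ _
      have h2 := Mx_growth hc hD hc0 hexp (n - m * k) (m * k)
      rw [Nat.sub_add_cancel hmk] at h2
      have h3 : (4 : ℝ) ^ m ≤ (1 + c) ^ (m * k) := by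
        rw [mul_comm m k, pow_mul]
        gcongr
      have h4 : (4 : ℝ) ^ m * ((ball G (γ y (m * k)) (n - m * k)).ncard : ℝ) ≤ Mx G n := by
        calc _ ≤ (1 + c) ^ (m * k) * (Mx G (n - m * k) : ℝ) := by gcongr
          _ ≤ _ := h2
      exact_mod_cast h4
    have hb3 : 0 < β m := by rw [hβ]; exact ncard_ball_pos hc hD _ _
    have hgood := halving β q m hb3 hb1 hb2
    have hex := exits_le hc hD (γ y) y n k R m hmk hγy
    set E := (range m).filter (fun j => y ∈ fball hc hD (γ y ((j + 1) * k)) (n - (j + 1) * k) ∧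
      y ∉ deep G (fball hc hD (γ y ((j + 1) * k)) (n - (j + 1) * k))
        (fball hc hD (γ y (j * k)) (n - j * k)) R) with hE
    have hsub : (range m).filter (fun j => 2 * β (j + 1) ≤ β j) ⊆
        (range m).filter (fun j => P y j) ∪ E := by
      intro j hj
      obtain ⟨hj1, hj2⟩ := mem_filter.1 hj
      rw [mem_range] at hj1
      have hyA : y ∈ fball hc hD (γ y ((j + 1) * k)) (n - (j + 1) * k) := by
        rw [mem_fball]
        have hjk : (j + 1) * k ≤ m * k := Nat.mul_le_mul_right _ hj1
        have := hγy ((j + 1) * k) (n - (j + 1) * k)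
        rwa [Nat.add_sub_cancel' (by omega), hn] at this
      by_cases hdp : y ∈ deep G (A (γ y ((j + 1) * k)) (j + 1)) (A (γ y (j * k)) j) R
      · apply mem_union_left
        exact mem_filter.2 ⟨mem_range.2 hj1, hj2, hdp⟩
      · apply mem_union_right
        exact mem_filter.2 ⟨mem_range.2 hj1, hyA, hdp⟩
    have h5 := (card_le_card hsub).trans (card_union_le _ _)
    have h6 : q * (2 * (D + 1) ^ R) ≤ q * ((range m).filter (fun j => 2 * β (j + 1) ≤ β j)).card :=
      hm.trans hgood
    have hq0 : 0 < q := by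
      rcases Nat.eq_zero_or_pos q with h | h
      · exfalso
        rw [h, pow_zero] at hq
        -- then D = 0 or k = 0
        have hk0 : k ≠ 0 := by
          rintro rfl
          norm_num at hk
        have hD0 : D = 0 := by
          by_contra hD1
          have : 1 < (D + 1) ^ (2 * k) := Nat.one_lt_pow (by omega) (by omega)
          omega
        obtain ⟨r, hr⟩ := exists_large_ball hc hD v 2
        have := ncard_ball_le hc hD v r
        rw [hD0] at this
        simp at this
        omega
      · exact h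
    have h7 := Nat.le_of_mul_le_mul_left h6 hq0
    omega
  -- upper bound for each level
  have hup : ∀ j ∈ range m, (((fball hc hD v n).filter (fun y => P y j)).card : ℝ) * (1 + c) ^ R ≤
      (D + 1) ^ k * ((Mx G ((j + 1) * k) : ℝ) * Mx G (n - (j + 1) * k)) := by
    intro j hj
    rw [mem_range] at hj
    have hjk : (j + 1) * k ≤ m * k := Nat.mul_le_mul_right _ hj
    have e1 : (j + 1) * k = j * k + k := by ring
    let Q : V → V → Finset V := fun x' x =>
      if 2 * (A x' (j + 1)).card ≤ (A x j).card ∧ A x' (j + 1) ⊆ A x j then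
        deep G (A x' (j + 1)) (A x j) R else ∅
    have hQ : ∀ x' x, ((Q x' x).card : ℝ) * (1 + c) ^ R ≤ Mx G (n - (j + 1) * k) := by
      intro x' x
      simp only [Q]
      split_ifs with h
      · have h1 := card_deep_le hc hD hc0 hexp x (n - j * k) (A x' (j + 1)) h.2
          (by rw [← card_fball hc hD]; exact h.1) R
        have h2 : ((A x' (j + 1)).card : ℝ) ≤ Mx G (n - (j + 1) * k) := by
          have := le_Mx hc hD x' (n - (j + 1) * k)
          rw [← card_fball hc hD] at this
          exact_mod_cast this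
        rw [mul_comm]
        exact h1.trans h2
      · simp
    have hsub : (fball hc hD v n).filter (fun y => P y j) ⊆
        (fball hc hD v ((j + 1) * k)).biUnion (fun x' => (fball hc hD x' k).biUnion (Q x')) := by
      intro y hy
      obtain ⟨hy1, hy2, hy3⟩ := mem_filter.1 hy
      obtain ⟨h0, hn, hγy⟩ := hγ y hy1
      have hd := hγy (j * k) k
      rw [← e1] at hd
      refine mem_biUnion.2 ⟨γ y ((j + 1) * k), ?_, mem_biUnion.2 ⟨γ y (j * k), ?_, ?_⟩⟩
      · rw [mem_fball]
        have := hγy 0 ((j + 1) * k)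
        rwa [zero_add, h0] at this
      · rw [mem_fball, SimpleGraph.dist_comm]
        exact hd
      · simp only [Q]
        rw [if_pos]
        · exact hy3
        · refine ⟨hy2, ?_⟩
          intro z hz
          simp only [A] at hz ⊢
          rw [mem_fball] at hz ⊢
          have := hc.dist_triangle (u := γ y (j * k)) (v := γ y ((j + 1) * k)) (w := z)
          omega
    have h1 : (((fball hc hD v n).filter (fun y => P y j)).card : ℝ) ≤
        ∑ x' ∈ fball hc hD v ((j + 1) * k), ∑ x ∈ fball hc hD x' k, ((Q x' x).card : ℝ) := by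
      have := (card_le_card hsub).trans card_biUnion_le
      have h2 : ((fball hc hD v n).filter (fun y => P y j)).card ≤
        ∑ x' ∈ fball hc hD v ((j + 1) * k), ∑ x ∈ fball hc hD x' k, (Q x' x).card :=
        this.trans (sum_le_sum (fun x' _ => card_biUnion_le))
      exact_mod_cast h2
    calc (((fball hc hD v n).filter (fun y => P y j)).card : ℝ) * (1 + c) ^ R
        ≤ (∑ x' ∈ fball hc hD v ((j + 1) * k), ∑ x ∈ fball hc hD x' k, ((Q x' x).card : ℝ)) *
          (1 + c) ^ R := by gcongr
      _ = ∑ x' ∈ fball hc hD v ((j + 1) * k), ∑ x ∈ fball hc hD x' k,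
          ((Q x' x).card : ℝ) * (1 + c) ^ R := by
          rw [sum_mul]
          exact sum_congr rfl (fun x' _ => sum_mul _ _ _)
      _ ≤ ∑ x' ∈ fball hc hD v ((j + 1) * k), ∑ x ∈ fball hc hD x' k,
          (Mx G (n - (j + 1) * k) : ℝ) := by
          gcongr with x' _ x _
          exact hQ x' x
      _ = ∑ x' ∈ fball hc hD v ((j + 1) * k), ((fball hc hD x' k).card : ℝ) *
          (Mx G (n - (j + 1) * k) : ℝ) := by
          refine sum_congr rfl (fun x' _ => ?_)
          rw [sum_const, nsmul_eq_mul]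
      _ ≤ ∑ x' ∈ fball hc hD v ((j + 1) * k), ((D + 1 : ℝ) ^ k) *
          (Mx G (n - (j + 1) * k) : ℝ) := by
          gcongr with x' _
          rw [card_fball]
          exact_mod_cast ncard_ball_le hc hD x' k
      _ = ((fball hc hD v ((j + 1) * k)).card : ℝ) * (((D + 1 : ℝ) ^ k) *
          (Mx G (n - (j + 1) * k) : ℝ)) := by rw [sum_const, nsmul_eq_mul]
      _ ≤ (Mx G ((j + 1) * k) : ℝ) * (((D + 1 : ℝ) ^ k) * (Mx G (n - (j + 1) * k) : ℝ)) := by
          gcongr
          rw [card_fball]
          exact le_Mx hc hD _ _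
      _ = _ := by ring
  -- double counting
  have hdc : ((D + 1) ^ R : ℝ) * Mx G n ≤
      ∑ j ∈ range m, (((fball hc hD v n).filter (fun y => P y j)).card : ℝ) := by
    have h1 : ∑ y ∈ fball hc hD v n, ((range m).filter (fun j => P y j)).card =
        ∑ j ∈ range m, ((fball hc hD v n).filter (fun y => P y j)).card := by
      simp only [card_filter]
      exact sum_comm
    have h2 : (fball hc hD v n).card * (D + 1) ^ R ≤
        ∑ y ∈ fball hc hD v n, ((range m).filter (fun j => P y j)).card := by
      rw [← smul_eq_mul, ← sum_const]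
      exact sum_le_sum hlow
    rw [h1, card_fball, hv] at h2
    have h3 : ((Mx G n * (D + 1) ^ R : ℕ) : ℝ) ≤
        ((∑ j ∈ range m, ((fball hc hD v n).filter (fun y => P y j)).card : ℕ) : ℝ) := by
      exact_mod_cast h2
    push_cast at h3
    linarith
  calc ((D + 1) ^ R : ℝ) * (1 + c) ^ R * Mx G n = ((D + 1) ^ R : ℝ) * Mx G n * (1 + c) ^ R := by ring
    _ ≤ (∑ j ∈ range m, (((fball hc hD v n).filter (fun y => P y j)).card : ℝ)) * (1 + c) ^ R := by
        gcongr
    _ = ∑ j ∈ range m, (((fball hc hD v n).filter (fun y => P y j)).card : ℝ) * (1 + c) ^ R := by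
        rw [sum_mul]
    _ ≤ ∑ j ∈ range m, ((D + 1) ^ k * ((Mx G ((j + 1) * k) : ℝ) * Mx G (n - (j + 1) * k))) :=
        sum_le_sum hup
    _ = _ := by rw [mul_sum]

end Pool.Agent.MP_515f4e_co
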