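import Pool.Agent.MP_515f4e_co.Count

set_option autoImplicit false

namespace Pool.Agent.MP_515f4e_co

open Finset

lemma exists_good (M : ℕ → ℝ) (lam c₁ : ℝ) (hlam : 0 < lam) (hc₁ : 0 < c₁)
    (hM : ∀ n, c₁ * lam ^ n ≤ M n) (K : ℕ)
    (hK : 0 < K) : ∃ n, K ≤ n ∧ ∀ i ≤ K, M (n - i) * lam ^ i ≤ 2 * M n := by
  by_contra hcon
  push Not at hcon
  have hpow : ∀ n, 0 < lam ^ n := fun n => by positivity
  have hMpos : ∀ n, 0 < M n := fun n => (mul_pos hc₁ (hpow n)).trans_le (hM n)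
  have key : ∀ n, M n / lam ^ n * 2 ^ (n / K) ≤ ∑ i ∈ range K, M i / lam ^ i := by
    intro n
    induction n using Nat.strong_induction_on with
    | _ n ih =>
      rcases Nat.lt_or_ge n K with h | h
      · rw [Nat.div_eq_of_lt h, pow_zero, mul_one]
        exact single_le_sum (f := fun i => M i / lam ^ i)
          (fun i _ => by have := hMpos i; have := hpow i; positivity) (mem_range.2 h)
      · obtain ⟨i, hi, hlt⟩ := hcon n h
        have hi0 : i ≠ 0 := by
          rintro rfl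
          have := hMpos n
          simp only [Nat.sub_zero, pow_zero, mul_one] at hlt
          linarith
        have h1 := ih (n - i) (by omega)
        refine le_trans ?_ h1
        have h2 : n / K ≤ (n - i) / K + 1 := by
          rw [← Nat.add_div_right _ hK]
          exact Nat.div_le_div_right (by omega)
        have h3 : 2 * (M n / lam ^ n) ≤ M (n - i) / lam ^ (n - i) := by
          have h4 : lam ^ n = lam ^ (n - i) * lam ^ i := by
            rw [← pow_add]; congr 1; omega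
          rw [h4, le_div_iff₀ (hpow _)]
          have h5 : 2 * (M n / (lam ^ (n - i) * lam ^ i)) * lam ^ (n - i) = 2 * M n / lam ^ i := by
            have := (hpow (n - i)).ne'
            have := (hpow i).ne'
            field_simp
          rw [h5, div_le_iff₀ (hpow _)]
          exact hlt.le
        calc M n / lam ^ n * 2 ^ (n / K) ≤ M n / lam ^ n * 2 ^ ((n - i) / K + 1) := by
              have := hMpos n
              have := hpow n
              gcongr
              norm_num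
          _ = 2 * (M n / lam ^ n) * 2 ^ ((n - i) / K) := by ring
          _ ≤ _ := by gcongr
  obtain ⟨t, ht⟩ := pow_unbounded_of_one_lt ((∑ i ∈ range K, M i / lam ^ i) / c₁)
    (by norm_num : (1 : ℝ) < 2)
  have h1 := key (K * t)
  rw [Nat.mul_div_cancel_left _ hK] at h1
  have h2 : c₁ ≤ M (K * t) / lam ^ (K * t) := by
    rw [le_div_iff₀ (hpow _)]; exact hM _
  have h3 : c₁ * 2 ^ t ≤ M (K * t) / lam ^ (K * t) * 2 ^ t := by gcongr
  rw [div_lt_iff₀ hc₁] at ht
  linarith

/-- the exponent -/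
noncomputable def expo (D : ℕ) (c : ℝ) : ℝ := Real.log (1 + c) / (2 * Real.log (D + 2))

lemma expo_pos (D : ℕ) (c : ℝ) (hc : 0 < c) : 0 < expo D c := by
  unfold expo
  have h1 : 0 < Real.log (1 + c) := Real.log_pos (by linarith)
  have h2 : 0 < Real.log ((D : ℝ) + 2) := Real.log_pos (by
    have : (0 : ℝ) ≤ D := Nat.cast_nonneg D
    linarith)
  positivity

lemma rpow_expo_le (D : ℕ) (c : ℝ) (hc : 0 < c) : ((D : ℝ) + 1) ^ (expo D c) ≤ √(1 + c) := by
  have hD : (0 : ℝ) ≤ D := Nat.cast_nonneg D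
  have h2 : 0 < Real.log ((D : ℝ) + 2) := Real.log_pos (by linarith)
  calc ((D : ℝ) + 1) ^ (expo D c) ≤ ((D : ℝ) + 2) ^ (expo D c) :=
        Real.rpow_le_rpow (by linarith) (by linarith) (expo_pos D c hc).le
    _ = Real.exp (Real.log ((D : ℝ) + 2) * expo D c) := by
        rw [Real.rpow_def_of_pos (by linarith)]
    _ = Real.exp (1 / 2 * Real.log (1 + c)) := by
        congr 1
        unfold expo
        field_simp
    _ = √(1 + c) := by
        rw [Real.sqrt_eq_rpow, Real.rpow_def_of_pos (by linarith), mul_comm]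

/-- The final contradiction. -/
theorem final (D : ℕ) (c : ℝ) (hc0 : 0 < c) {V : Type} [Infinite V] {G : SimpleGraph V}
    (hc : G.Connected) (hD : ∀ v, (G.neighborSet v).encard ≤ D) (lam c₁ C : ℝ) (hlam : 0 < lam)
    (hc₁ : 0 < c₁) (hlow : ∀ n : ℕ, ∃ v, c₁ * lam ^ n ≤ ((ball G v n).ncard : ℝ))
    (hup : ∀ (v : V) (n : ℕ), 1 ≤ n → ((ball G v n).ncard : ℝ) ≤ C * (n : ℝ) ^ (expo D c) * lam ^ n)
    (hexp : BallsExpand G c) : False := by
  set ε := expo D c with hε
  have hεpos : 0 < ε := expo_pos D c hc0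
  have hMlow : ∀ n : ℕ, c₁ * lam ^ n ≤ (Mx G n : ℝ) := by
    intro n
    obtain ⟨v, hv⟩ := hlow n
    refine hv.trans ?_
    exact_mod_cast le_Mx hc hD v n
  have hMup : ∀ n : ℕ, 1 ≤ n → (Mx G n : ℝ) ≤ C * (n : ℝ) ^ ε * lam ^ n := by
    intro n hn
    obtain ⟨v, hv⟩ := exists_Mx hc hD n
    rw [← hv]
    exact hup v n hn
  have hC : 0 ≤ C := by
    have h1 := hMlow 1
    have h2 := hMup 1 le_rfl
    simp only [pow_one, Nat.cast_one, Real.one_rpow, mul_one] at h1 h2
    by_contra h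
    push Not at h
    have h3 : 0 < c₁ * lam := mul_pos hc₁ hlam
    nlinarith
  obtain ⟨k, hk⟩ := pow_unbounded_of_one_lt (4 : ℝ) (by linarith : (1 : ℝ) < 1 + c)
  have hk0 : 0 < k := by
    rcases Nat.eq_zero_or_pos k with h | h
    · rw [h] at hk; norm_num at hk
    · exact h
  set q : ℕ := 2 * k * (D + 1) with hq
  have hqq : (D + 1) ^ (2 * k) ≤ 2 ^ q := by
    calc (D + 1) ^ (2 * k) ≤ (2 ^ (D + 1)) ^ (2 * k) :=
          Nat.pow_le_pow_left (Nat.lt_two_pow_self).le _
      _ = 2 ^ q := by rw [hq, ← pow_mul, mul_comm (D + 1) (2 * k)]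
  have hq0 : 0 < q := by positivity
  have hmain : ∀ R : ℕ, √(1 + c) ^ R ≤
      4 * q * C * (D + 1) ^ k * (2 * q * k : ℝ) ^ ε := by
    intro R
    set m := q * (2 * (D + 1) ^ R) with hm
    have hm0 : 0 < m := by positivity
    obtain ⟨n, hn, hgood⟩ := exists_good (fun n => (Mx G n : ℝ)) lam c₁ hlam hc₁ hMlow (m * k)
      (by positivity)
    have h1 := main_ineq hc hD hc0 hexp k q R m n hk.le hqq hn le_rfl
    have hMn : (0 : ℝ) < Mx G n := by exact_mod_cast Mx_pos hc hD n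
    have h2 : ∀ j ∈ range m, (Mx G ((j + 1) * k) : ℝ) * Mx G (n - (j + 1) * k) ≤
        C * ((m * k : ℕ) : ℝ) ^ ε * (2 * Mx G n) := by
      intro j hj
      rw [mem_range] at hj
      have hjk : (j + 1) * k ≤ m * k := Nat.mul_le_mul_right _ hj
      have hjk0 : 1 ≤ (j + 1) * k := Nat.mul_pos (Nat.succ_pos j) hk0
      have h3 := hMup _ hjk0
      have h4 := hgood _ hjk
      calc (Mx G ((j + 1) * k) : ℝ) * Mx G (n - (j + 1) * k)
          ≤ (C * (((j + 1) * k : ℕ) : ℝ) ^ ε * lam ^ ((j + 1) * k)) * Mx G (n - (j + 1) * k) := by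
            gcongr
        _ = C * (((j + 1) * k : ℕ) : ℝ) ^ ε * (Mx G (n - (j + 1) * k) * lam ^ ((j + 1) * k)) := by
            ring
        _ ≤ C * ((m * k : ℕ) : ℝ) ^ ε * (2 * Mx G n) := by
            gcongr
    have h3 : ∑ j ∈ range m, (Mx G ((j + 1) * k) : ℝ) * Mx G (n - (j + 1) * k) ≤
        m * (C * ((m * k : ℕ) : ℝ) ^ ε * (2 * Mx G n)) := by
      have := sum_le_sum h2
      rwa [sum_const, card_range, nsmul_eq_mul] at this
    have h4 : ((D + 1) ^ R : ℝ) * (1 + c) ^ R * Mx G n ≤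
        ((D + 1) ^ R : ℝ) * (4 * q * C * (D + 1) ^ k * ((m * k : ℕ) : ℝ) ^ ε) * Mx G n := by
      refine h1.trans ?_
      calc ((D + 1 : ℝ) ^ k) * ∑ j ∈ range m, (Mx G ((j + 1) * k) : ℝ) * Mx G (n - (j + 1) * k)
          ≤ ((D + 1 : ℝ) ^ k) * (m * (C * ((m * k : ℕ) : ℝ) ^ ε * (2 * Mx G n))) := by gcongr
        _ = _ := by
            rw [hm]; push_cast; ring
    have h5 := le_of_mul_le_mul_right h4 hMn
    rw [mul_assoc] at h5
    have h5' : (1 + c) ^ R ≤ 4 * q * C * (D + 1) ^ k * ((m * k : ℕ) : ℝ) ^ ε := by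
      have hpos : (0 : ℝ) < (D + 1) ^ R := by positivity
      exact le_of_mul_le_mul_left (by linarith) hpos
    have h6 : ((m * k : ℕ) : ℝ) ^ ε = (2 * q * k : ℝ) ^ ε * (((D : ℝ) + 1) ^ ε) ^ R := by
      rw [hm]
      push_cast
      rw [show (q : ℝ) * (2 * ((D : ℝ) + 1) ^ R) * k = (2 * q * k) * ((D : ℝ) + 1) ^ R by ring,
        Real.mul_rpow (by positivity) (by positivity), ← Real.rpow_natCast, ← Real.rpow_natCast,
        ← Real.rpow_mul (by positivity), ← Real.rpow_mul (by positivity), mul_comm (R : ℝ) ε]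
    rw [h6] at h5'
    have h7 : (((D : ℝ) + 1) ^ ε) ^ R ≤ √(1 + c) ^ R := by
      have := rpow_expo_le D c hc0
      gcongr
    have h8 : (1 + c) ^ R = √(1 + c) ^ R * √(1 + c) ^ R := by
      rw [← mul_pow, Real.mul_self_sqrt (by linarith)]
    have h9 : √(1 + c) ^ R * √(1 + c) ^ R ≤
        (4 * q * C * (D + 1) ^ k * (2 * q * k : ℝ) ^ ε) * √(1 + c) ^ R := by
      rw [← h8]
      refine h5'.trans ?_
      calc 4 * q * C * (D + 1) ^ k * ((2 * q * k : ℝ) ^ ε * (((D : ℝ) + 1) ^ ε) ^ R)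
          ≤ 4 * q * C * (D + 1) ^ k * ((2 * q * k : ℝ) ^ ε * √(1 + c) ^ R) := by gcongr
        _ = _ := by ring
    have hspos : 0 < √(1 + c) ^ R := by positivity
    exact le_of_mul_le_mul_right h9 hspos
  obtain ⟨R, hR⟩ := pow_unbounded_of_one_lt (4 * q * C * (D + 1) ^ k * (2 * q * k : ℝ) ^ ε)
    (show 1 < √(1 + c) by
      rw [Real.lt_sqrt (by norm_num)]; linarith)
  exact absurd (hmain R) (not_le.2 hR)

end Pool.Agent.MP_515f4e_co
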